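import Pool.Agent.J6H54.Voe.Main

/-!
# Voevodsky's conjecture over the complex numbers follows from the conjecture over number fields

`T` is a theory of algebraic cycle classes (rational coefficients, all codimensions) with a
cohomology theory, with the properties collected in `CycleTheory.Known`. They are known theorems for
Chow groups with `ℓ`-adic cohomology. Voevodsky's conjecture says that numerically trivial cycle
classes `a` on smooth projective varieties are smash-nilpotent, `a^{×r} = 0` for some `r > 0`; together
with `a` homologically trivial in place of numerically trivial this is the problem.

Outline. Let `k ⊆ K` be algebraically closed. A smooth proper `K`-scheme with a numerically trivial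
class is a fibre of a smooth proper family `X → U` over a smooth affine `k`-scheme of dimension `e`,
with a class `a` on `X`. The conjecture over `k` for a compactification of `X` and the theorem of the
fixed part show that the cohomology class of `a` vanishes on the fibres of `X → U`, so it lies in the
first step of the Leray filtration. Hence the cohomology class of the exterior power
`a ×_U ⋯ ×_U a` with `e + 1` factors is zero, by Artin's vanishing theorem. By Deligne's theory of
weights, an extension `Z` of this class to a smooth compactification of the fibre power has a
cohomology class which is a push-forward from the boundary `D`. The conjecture over `k` for `D` implies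
that `Z` can be changed by the push-forward of a cycle class on `D` to become numerically trivial: the
space of cycle classes modulo numerical equivalence is finite-dimensional and the intersection form is
non-degenerate on it, so it suffices to show that the classes orthogonal to all push-forwards from `D`
are orthogonal to `Z`, and the restrictions of these classes to `D` are numerically, hence
homologically trivial. By the conjecture over `k` for the compactification, the exterior power is
smash-nilpotent.
-/

open CategoryTheory AlgebraicGeometry

universe u v

namespace Pool.Agent.Results.MP_bf8edd_ag.DescentToNumberFields

open Pool.Agent.J6H54.Voe

/-- **Voevodsky's conjecture over different fields of characteristic zero**, for a theory of cycle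
classes with the known properties of Chow groups and `ℓ`-adic cohomology.

(1) Let `k ⊆ K` be algebraically closed. If over `k`, for all smooth projective schemes of dimension
at most `e + (e + 1) n`, every numerically trivial class `a` satisfies `a^{×r} = 0` for some `r ∈ R`,
then the relative form over bases of dimension `e` holds, with the exponents `r (e + 1)`, `r ∈ R`, for
families of relative dimension `n`; and the statement holds for smooth proper schemes of dimension `n`
over `K`, with these exponents, if the transcendence degree of `K` over `k` is at most `e`.

(2) If over `F`, for all smooth projective schemes of dimension at most `n`, every numerically trivial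
class `a` satisfies `a^{×r} = 0` for some `r ∈ R`, then the same holds for all homologically trivial
classes on all smooth separated schemes of finite type and dimension `n` over `F`.

(3) For every field `F` of characteristic zero (for instance the rational numbers) the following are
equivalent: Voevodsky's conjecture over `F`; the same for smooth proper schemes over all fields of
characteristic zero; the problem and conjecture D over all algebraically closed fields of
characteristic zero; the problem for all smooth (also non-proper) schemes and conjecture D over these
fields; the relative form for all pairs of them. -/
theorem result (T : CycleTheory.{u, v}) (hT : T.Known) :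
    (∀ (k K : Type u) [Field k] [IsAlgClosed k] [CharZero k] [Field K] [IsAlgClosed K] [CharZero K]
      [Algebra k K] (R : Set ℕ) (e n : ℕ), (∀ m ≤ e + (e + 1) * n, T.VProj R m k) →
        T.VRel ((· * (e + 1)) '' R) e n k K ∧
        (Algebra.trdeg k K ≤ e → T.VProper ((· * (e + 1)) '' R) n K)) ∧
    (∀ (F : Type u) [Field F] [IsAlgClosed F] [CharZero F] (R : Set ℕ) (n : ℕ),
      (∀ m ≤ n, T.VProj R m F) → T.HomOpen R n F) ∧
    ∀ (F : Type u) [Field F] [CharZero F], List.TFAE [T.Voevodsky F,
      ∀ (G : Type u) [Field G] [CharZero G] (n : ℕ), T.VProper {r | 0 < r} n G,
      ∀ (G : Type u) [Field G] [IsAlgClosed G] [CharZero G], T.HomSmash G ∧ T.ConjD G,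
      ∀ (G : Type u) [Field G] [IsAlgClosed G] [CharZero G],
        (∀ n, T.HomOpen {r | 0 < r} n G) ∧ T.ConjD G,
      ∀ (k K : Type u) [Field k] [IsAlgClosed k] [CharZero k] [Field K] [IsAlgClosed K]
        [CharZero K] [Algebra k K] (e n : ℕ), T.VRel {r | 0 < r} e n k K] :=
  ⟨fun _ _ => fun _ _ _ hV => hT.quantitative hV,
    fun _ => fun _ _ hV => hT.homOpen fun m hm => hT.vProper_of_vProj (hV m hm),
    fun F => hT.qualitative F⟩

end Pool.Agent.Results.MP_bf8edd_ag.DescentToNumberFields
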