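import Pool.Agent.J6H25.MOD.VConv

/-!
# MP_bf8edd_ag: Voevodsky's conjecture on the products of an arbitrary motive with the powers of a
variety

Let `A` be a theory of cycles on a class of smooth proper varieties, for example the Chow groups
with coefficients in a field of characteristic zero, and let `ρ(Z)` be the dimension of `A(Z)`
modulo numerical equivalence. Let `Y` be any variety of the class and `e` an idempotent
correspondence from `Y` to itself. For a variety `Z` let `N_e(Z)` be the space of the numerically
trivial classes `x` on `Y × Z` with `e ∘ x = x`, and let `d(Z)` be the dimension of `N_e(Z)` modulo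
the smash-nilpotent classes in it. Nothing is assumed about `Y` and `e`, and no finiteness is
assumed.

* For all `P`, `Z`: all classes in `N_e(P)` are smash-nilpotent, or `d(P × Z) ≥ ρ(Z)`.
* For all `X`: either all classes in `N_e(Z)` are smash-nilpotent for all `Z` dominated by powers of
  `X`, or there is `c` with `ρ(X^n) ≤ c d(X^n)` for all large `n`.
* If homological and numerical equivalence agree on the powers of `X` (for example abelian varieties
  and products of curves over the complex numbers), then `d(X^n) / ρ(X^n)` has a limit `i`, an integer
  or infinity, and `i = 0` if and only if all classes in `N_e(Z)` are smash-nilpotent for all `Z`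
  dominated by powers of `X`.
-/

set_option autoImplicit false

open Filter Topology
open Pool.Agent.H914 Pool.Agent.H914.VarClass Pool.Agent.H914.VarClass.Obj
  Pool.Agent.Y133.Half Pool.Agent.N132.IXS Pool.Agent.J6H25.AJS

namespace Pool.Agent.Results.MP_bf8edd_ag.ProductsWithAnyMotive

universe u v w

theorem result {k : Type u} [Field k] {𝒱 : VarClass k} {ops : CycleOps 𝒱}
    {W : WeilCohomology.{u, v} ops} (C : CycleTheory.{u, v, w} W) {Y : 𝒱.Obj}
    (e : C.A (Y.prod Y)) (he : C.comp e e = e) :
    (∀ P Z, VHolds (C := C.toChowTheory) e P ∨
      C.numRank Z ≤ vdim (C := C.toChowTheory) e (P.prod Z)) ∧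
    ∀ X, (VHoldsBelow (C := C.toChowTheory) e X ∨ VIsLarge (C := C.toChowTheory) e X) ∧
      (HomEqNum C X → VIndexLaw (C := C.toChowTheory) e X) :=
  final_voe C e he

end Pool.Agent.Results.MP_bf8edd_ag.ProductsWithAnyMotive
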