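import Pool.Agent.J6H25.AJ.NConv

/-!
# Smash-nilpotence of single cycles and of ideals of cycles

Let `X` be a variety such that homological and numerical equivalence agree on the powers of `X` (a
theorem of Lieberman for complex abelian varieties and all varieties whose motive is of abelian type).
Let `A(Y)` be the Chow groups with rational coefficients and `ρ(Y)` the dimension of `A(Y)` modulo
numerical equivalence. No finiteness is assumed.

* Let `z` be a numerically trivial cycle on a variety `P` dominated by a power of `X`. Either `z` is
  smash-nilpotent, or the dimensions of the spaces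
  `{Γ_* z : Γ ∈ A(P × X^n)} / (smash-nilpotent classes in it)`, divided by `ρ(X^n)`, tend to infinity.
  If `dim {Γ_* z : Γ ∈ A(P × X^n)} ≤ c ρ(X^n)` for infinitely many `n`, then `z × ⋯ × z = 0`
  (`c + 1` factors).
* The same for tensor ideals `J` of numerically trivial classes (families of subspaces `J(Y) ⊆ A(Y)`
  stable under pull-backs, push-forwards and products with arbitrary classes): either all classes in
  `J(Y)` are smash-nilpotent for all `Y` dominated by powers of `X`, or the dimension of `J(X^n)`
  modulo smash-nilpotent classes, divided by `ρ(X^n)`, tends to infinity. If `dim J(X^n) ≤ c ρ(X^n)`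
  for infinitely many `n`, then `y × ⋯ × y = 0` (`c + 1` factors) for all classes `y` in `J(Y)`, `Y`
  dominated by a power of `X`.
-/

set_option autoImplicit false

open Filter Topology
open Pool.Agent.H914 Pool.Agent.H914.VarClass Pool.Agent.Y133.Half Pool.Agent.N132.IXS
  Pool.Agent.J6H32.SQ Pool.Agent.J6H25.AJS

namespace Pool.Agent.Results.MP_bf8edd_ag.SmallIdeals

universe u v w

theorem result {k : Type u} [Field k] {𝒱 : VarClass k} {ops : CycleOps 𝒱}
    {W : WeilCohomology.{u, v} ops} (C : CycleTheory.{u, v, w} W) (X : 𝒱.Obj)
    (hD : HomEqNum C X) :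
    (∀ J : Family C.toChowTheory, J.IsTensorIdeal → (∀ c, J.BoundedBy X c → J.PowersVanish X c) ∧
      (J.NilBelow X ∨ Tendsto (fun n => J.smashRatio (pw X n)) atTop (𝓝 ⊤))) ∧
    ∀ (P : 𝒱.Obj) (z : C.A P), ChowTheory.NumTriv z →
      (orbit z).IsTensorIdeal ∧ (orbit z).Mem z ∧
        (Dominates C.toChowTheory X P → ClassLaw X z) :=
  final_nil C X hD

end Pool.Agent.Results.MP_bf8edd_ag.SmallIdeals
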