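import Mathlib
import Pool.Agent.J6H32.SQ.Law

/-!
# The zero-infinity law for Voevodsky's smash-nilpotence conjecture, for all varieties

Let `X` be ANY smooth projective complex variety. Let `ρ (n)` be the dimension of the space of the
cycles of all codimensions on `X ^ n` modulo numerical equivalence (rational coefficients), and
`σ (n) ≥ ρ (n)`, a number or infinity, the dimension of the space of the cycles on `X ^ n` modulo
smash-nilpotent cycles (modulo rational equivalence, `CH^*(X ^ n)_ℚ / CH^*(X ^ n)_⊗`).

Theorem. One of the following holds.

* `σ (n) = ρ (n)` for all `n`, and for all smooth projective varieties `Y` dominated by a power of `X`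
  the numerically trivial, the homologically trivial and the smash-nilpotent cycles on `Y` are the
  same: Voevodsky's conjecture holds for `Y`, and the standard conjecture D.
* `σ (n) / ρ (n)` tends to infinity.

So the conjecture holds for all varieties dominated by powers of `X` as soon as `σ (n) ≤ c ρ (n)` for
one constant `c` and infinitely many `n`. If it fails for one of them, then for large `n` almost no
cycle modulo smash-nilpotence on `X ^ n` is detected by numerical equivalence.

The starting result `MP_550f75_ag.ZeroOneLaw` is this law for the varieties which satisfy the sign
conjecture (the projector to the even cohomology is algebraic). Here nothing is assumed about `X`.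

Proof. By a law of the starting library the dimensions of the groups `A(X ^ n)` of any theory `A` of
cycles grow, relative to those modulo numerical equivalence, like an integer or infinity, and in the
first case a composition of sufficiently many numerically trivial correspondences between powers of
`X` vanishes (`Pool.Agent.N132.IX`); so the law holds for theories without smash-nilpotent classes.
The rest is the construction of the theory of cycles modulo smash-nilpotent cycles: the
smash-nilpotent classes form a homogeneous ideal, stable under pull-backs and push-forwards
(`SQ.Nil`, `SQ.Comp`), and the quotient is a theory of cycles without smash-nilpotent classes and with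
the same numerical classes (`SQ.Quot`).
-/

set_option autoImplicit false

open CategoryTheory Filter Topology
open Pool.Agent.H914 Pool.Agent.H914.VarClass Pool.Agent.Y133.Half Pool.Agent.N132
  Pool.Agent.J6H32.SQ
open scoped ENNReal

namespace Pool.Agent.Results.MP_bf8edd_ag.ZeroInfinityLaw

universe u v w

/-- **The zero-infinity law for smash-nilpotence on the powers of `X`**, for any theory `C` of cycles
(for the problem: `𝒱` the smooth projective varieties over `ℂ`, `C` the Chow groups with rational
coefficients, `W` the singular cohomology; `pw X n` is the product of `n + 1` copies of `X`). In the
first alternative `Y` is any variety with a morphism `f` from a power of `X` such that `f_* a = 1` for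
some class `a` (any `Y` with a surjective `f`). -/
theorem result {k : Type u} [Field k] {𝒱 : VarClass k} {ops : CycleOps 𝒱}
    {W : WeilCohomology.{u, v} ops} (C : IXS.CycleTheory.{u, v, w} W) (X : 𝒱.Obj) :
    ((∀ n, smashDim C.toChowTheory (pw X n) = C.numRank (pw X n)) ∧
      ∀ Y : 𝒱.Obj, Dominates C.toChowTheory X Y → SameClasses C Y) ∨
    Tendsto (fun n => smashRatio C.toChowTheory (pw X n)) atTop (𝓝 ⊤) :=
  law_final C X

end Pool.Agent.Results.MP_bf8edd_ag.ZeroInfinityLaw
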